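import Mathlib

namespace Pool.Agent.Results.MP_eb4cdf_pr.NotBowl

open MeasureTheory ProbabilityTheory

/-- Departure times `D i j` (jobs and stations numbered from 1). The regime `r` is `none` for
unlimited buffers, `some (false, b)` for manufacturing blocking and `some (true, b)` for
communications blocking with buffer size `b`; `T i j` is the time of job `i+1` at station `j+1`. -/
noncomputable def dep (r : Option (Bool × ℕ)) (m : ℕ) (T : ℕ → ℕ → ℝ) : ℕ → ℕ → ℝ
  | 0, _ => 0
  | _ + 1, 0 => 0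
  | i + 1, j + 1 =>
    if m ≤ j then 0 else
      match r with
      | none => max (dep r m T (i + 1) j) (dep r m T i (j + 1)) + T i j
      | some (false, b) =>
          max (max (dep r m T (i + 1) j + T i j) (dep r m T i (j + 1) + T i j))
            (dep r m T (i - b) (j + 2))
      | some (true, b) =>
          max (max (dep r m T (i + 1) j) (dep r m T i (j + 1))) (dep r m T (i - b) (j + 2)) + T i j
termination_by i j => (i, j)
decreasing_by
  all_goals first
    | exact Prod.Lex.right _ (by omega)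
    | exact Prod.Lex.left _ _ (by omega)

/-- Expected makespan for i.i.d. work requirements with law `μ` and speeds `s`. -/
noncomputable def cost (r : Option (Bool × ℕ)) (n m : ℕ) (μ : Measure ℝ) (s : Fin m → ℝ) : ℝ :=
  ∫ X : Fin n × Fin m → ℝ,
    dep r m (fun i j => if h : i < n ∧ j < m then X (⟨i, h.1⟩, ⟨j, h.2⟩) / s ⟨j, h.2⟩ else 0) n m
    ∂(Measure.pi fun _ => μ)

noncomputable def law (k c : ℕ) : Measure ℝ :=
  (uniformOn (Set.univ : Set (Fin (k + 1)))).map fun i => ((c + i.val : ℕ) : ℝ)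

instance (k c : ℕ) : IsProbabilityMeasure (law k c) := by
  unfold law
  exact Measure.isProbabilityMeasure_map (by fun_prop)

lemma law_neg (k c : ℕ) : law k c (Set.Iio 0) = 0 := by
  unfold law
  rw [Measure.map_apply (by fun_prop) measurableSet_Iio]
  have : (fun i : Fin (k + 1) => ((c + i.val : ℕ) : ℝ)) ⁻¹' Set.Iio 0 = ∅ := by
    ext i
    simp only [Set.mem_preimage, Set.mem_Iio, Set.mem_empty_iff_false, iff_false, not_lt]
    positivity
  rw [this, measure_empty]

lemma law_int (k c : ℕ) : Integrable (fun x : ℝ => x) (law k c) := by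
  unfold law
  rw [integrable_map_measure (by fun_prop) (by fun_prop)]
  exact Integrable.of_finite

lemma int_eq {ι : Type} [Fintype ι] [DecidableEq ι] (k c : ℕ) (g : (ι → ℝ) → ℝ)
    (hg : Measurable g) :
    ∫ X, g X ∂(Measure.pi fun _ : ι => law k c) =
      (∑ w : ι → Fin (k + 1), g fun i => ((c + (w i).val : ℕ) : ℝ)) /
        ((k + 1 : ℕ) : ℝ) ^ Fintype.card ι := by
  unfold law
  rw [← Measure.pi_map_pi (fun _ => by fun_prop), integral_map (Measurable.of_discrete).aemeasurable hg.aestronglyMeasurable,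
    integral_fintype Integrable.of_finite, Finset.sum_div]
  refine Finset.sum_congr rfl fun w _ => ?_
  have : (Measure.pi fun _ : ι => uniformOn (Set.univ : Set (Fin (k + 1)))).real {w} =
      1 / ((k + 1 : ℕ) : ℝ) ^ Fintype.card ι := by
    rw [Measure.real, Measure.pi_singleton]
    simp [uniformOn_univ, ENNReal.toReal_pow, ENNReal.toReal_inv, ENNReal.toReal_add]
  rw [this, smul_eq_mul]
  ring

lemma z0 (r m T j) : dep r m T 0 j = 0 := by rw [dep]
lemma z1 (r m T i) : dep r m T i 0 = 0 := by cases i <;> rw [dep]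
lemma z2 (r m T i j) (h : m ≤ j) : dep r m T i (j + 1) = 0 := by
  cases i
  · rw [dep]
  · rw [dep.eq_def]; simp [h]
lemma eU (m T i j) (h : j < m) : dep none m T (i + 1) (j + 1) =
    max (dep none m T (i + 1) j) (dep none m T i (j + 1)) + T i j := by
  rw [dep.eq_def]; simp [Nat.not_le.mpr h]
lemma eM (b m T i j) (h : j < m) : dep (some (false, b)) m T (i + 1) (j + 1) =
    max (max (dep (some (false, b)) m T (i + 1) j + T i j)
      (dep (some (false, b)) m T i (j + 1) + T i j))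
        (dep (some (false, b)) m T (i - b) (j + 2)) := by
  rw [dep.eq_def]; simp [Nat.not_le.mpr h]
lemma eC (b m T i j) (h : j < m) : dep (some (true, b)) m T (i + 1) (j + 1) =
    max (max (dep (some (true, b)) m T (i + 1) j) (dep (some (true, b)) m T i (j + 1)))
        (dep (some (true, b)) m T (i - b) (j + 2)) + T i j := by
  rw [dep.eq_def]; simp [Nat.not_le.mpr h]

lemma meas {α : Type} [MeasurableSpace α] (r m) (T : α → ℕ → ℕ → ℝ)
    (hT : ∀ i j, Measurable fun a => T a i j) (i : ℕ) :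
    ∀ j, Measurable fun a => dep r m (T a) i j := by
  induction i using Nat.strong_induction_on with
  | _ i ih =>
    intro j
    induction j with
    | zero => simp only [z1]; exact measurable_const
    | succ j ihj =>
      rcases i with _ | i
      · simp only [z0]; exact measurable_const
      by_cases h : m ≤ j
      · simp only [z2 _ _ _ _ _ h]; exact measurable_const
      have h' : j < m := Nat.not_le.mp h
      have h1 := ih i (by omega) (j + 1)
      have h3 := hT i j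
      rcases r with _ | ⟨_ | _, b⟩
      · simp only [eU _ _ _ _ h']
        exact (ihj.max h1).add h3
      · simp only [eM _ _ _ _ _ h']
        exact ((ihj.add h3).max (h1.add h3)).max (ih _ (by omega) _)
      · simp only [eC _ _ _ _ _ h']
        exact ((ihj.max h1).max (ih _ (by omega) _)).add h3

lemma row1 (r m) (T : ℕ → ℕ → ℝ) (hT : ∀ i j, 0 ≤ T i j) (j : ℕ) (h : j ≤ m) :
    dep r m T 1 j = ∑ l ∈ Finset.range j, T 0 l := by
  induction j with
  | zero => simp [z1]
  | succ j ih =>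
    have ih := ih (by omega)
    have h0 : 0 ≤ ∑ l ∈ Finset.range j, T 0 l := Finset.sum_nonneg fun l _ => hT 0 l
    have h1 := hT 0 j
    rw [Finset.sum_range_succ]
    rcases r with _ | ⟨_ | _, b⟩
    · rw [eU m T 0 j h, ih, z0, max_eq_left h0]
    · rw [eM b m T 0 j h, ih, z0, Nat.zero_sub, z0, max_eq_left (a := _ + _) (by linarith),
        max_eq_left (by linarith)]
    · rw [eC b m T 0 j h, ih, z0, Nat.zero_sub, z0, max_eq_left h0, max_eq_left h0]

lemma dep23 (r : Option (Bool × ℕ)) (hr : r ≠ some (true, 0)) (T : ℕ → ℕ → ℝ)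
    (hT : ∀ i j, 0 ≤ T i j) :
    dep r 3 T 2 3 = T 0 0 + T 1 2 + max (max (T 1 0 + T 1 1) (T 0 1 + T 1 1)) (T 0 1 + T 0 2) := by
  have h00 := hT 0 0
  have h01 := hT 0 1
  have h02 := hT 0 2
  have h10 := hT 1 0
  have h11 := hT 1 1
  have h12 := hT 1 2
  have a1 := row1 r 3 T hT 1 (by omega)
  have a2 := row1 r 3 T hT 2 (by omega)
  have a3 := row1 r 3 T hT 3 (by omega)
  have a4 := z2 r 3 T 1 3 le_rfl
  simp only [Finset.sum_range_succ, Finset.sum_range_zero, zero_add] at a1 a2 a3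
  rcases r with _ | ⟨_ | _, _ | b⟩
  · rw [eU 3 T 1 2 (by omega), eU 3 T 1 1 (by omega), eU 3 T 1 0 (by omega), z1, a1, a2, a3]
    simp only [max_def]
    split_ifs <;> linarith
  · rw [eM 0 3 T 1 2 (by omega), eM 0 3 T 1 1 (by omega), eM 0 3 T 1 0 (by omega), z1, a1, a2, a3,
      a4, max_eq_right (a := 0 + _) (by linarith)]
    simp only [max_def]
    split_ifs <;> linarith
  · rw [eM _ 3 T 1 2 (by omega), eM _ 3 T 1 1 (by omega), eM _ 3 T 1 0 (by omega), z1, a1, a2, a3,
      show 1 - (b + 1) = 0 by omega, z0, z0, z0, max_eq_right (a := 0 + _) (by linarith),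
      max_eq_left (a := T 0 0 + T 1 0) (by linarith)]
    simp only [max_def]
    split_ifs <;> linarith
  · exact absurd rfl hr
  · rw [eC _ 3 T 1 2 (by omega), eC _ 3 T 1 1 (by omega), eC _ 3 T 1 0 (by omega), z1, a1, a2, a3,
      show 1 - (b + 1) = 0 by omega, z0, z0, z0, max_eq_right h00, max_eq_left h00]
    simp only [max_def]
    split_ifs <;> linarith

lemma sum6 (G : Fin 10 → Fin 10 → Fin 10 → Fin 10 → Fin 10 → Fin 10 → ℝ) :
    ∑ w : Fin 2 × Fin 3 → Fin 10,
      G (w (0, 0)) (w (1, 2)) (w (0, 1)) (w (0, 2)) (w (1, 0)) (w (1, 1)) =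
    ∑ a, ∑ f, ∑ b, ∑ c, ∑ d, ∑ e, G a f b c d e := by
  simp only [← Fintype.sum_prod_type']
  refine Finset.sum_nbij' (fun w => (w (0, 0), w (1, 2), w (0, 1), w (0, 2), w (1, 0), w (1, 1)))
    (fun p x => ![![p.1, p.2.2.1, p.2.2.2.1], ![p.2.2.2.2.1, p.2.2.2.2.2, p.2.1]] x.1 x.2)
    (fun _ _ => Finset.mem_univ _) (fun _ _ => Finset.mem_univ _) ?_ ?_ (fun _ _ => rfl)
  · intro w _
    funext ⟨i, j⟩
    fin_cases i <;> fin_cases j <;> rfl
  · intro p _
    rfl

def P (b c d e : ℕ) : ℕ := if b ≤ d ∧ b + c ≤ d + e then d else if e ≤ c then c else 0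
def Q (b c d e : ℕ) : ℕ := if b ≤ d ∧ b + c ≤ d + e then e else if e ≤ c then b else b + e
def R (b c d e : ℕ) : ℕ := max (max (d * 80 + e * 81) (b * 81 + e * 81)) (b * 81 + c * 80)

lemma sP : ∑ b : Fin 10, ∑ c : Fin 10, ∑ d : Fin 10, ∑ e : Fin 10,
    P (50 + b) (50 + c) (50 + d) (50 + e) = 448679 := by decide +kernel
lemma sQ : ∑ b : Fin 10, ∑ c : Fin 10, ∑ d : Fin 10, ∑ e : Fin 10,
    Q (50 + b) (50 + c) (50 + d) (50 + e) = 669404 := by decide +kernel
lemma sR : ∑ b : Fin 10, ∑ c : Fin 10, ∑ d : Fin 10, ∑ e : Fin 10,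
    R (50 + b) (50 + c) (50 + d) (50 + e) = 90170874 := by decide +kernel
lemma sA : ∑ a : Fin 10, ∑ f : Fin 10, (50 + a.val + (50 + f.val)) = 10900 := by decide +kernel

lemma lin (u v w : ℝ) (A B : ℕ → ℕ → ℕ → ℕ → ℕ) :
    ∑ a : Fin 10, ∑ f : Fin 10, ∑ b : Fin 10, ∑ c : Fin 10, ∑ d : Fin 10, ∑ e : Fin 10,
      (((50 + a.val + (50 + f.val) : ℕ) : ℝ) * u + (A (50 + b) (50 + c) (50 + d) (50 + e) : ℝ) * v +
        (B (50 + b) (50 + c) (50 + d) (50 + e) : ℝ) * w) =
    109000000 * u +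
      100 * ((∑ b : Fin 10, ∑ c : Fin 10, ∑ d : Fin 10, ∑ e : Fin 10,
        A (50 + b) (50 + c) (50 + d) (50 + e) : ℕ) : ℝ) * v +
      100 * ((∑ b : Fin 10, ∑ c : Fin 10, ∑ d : Fin 10, ∑ e : Fin 10,
        B (50 + b) (50 + c) (50 + d) (50 + e) : ℕ) : ℝ) * w := by
  have h : ((∑ a : Fin 10, ∑ f : Fin 10, (50 + a.val + (50 + f.val)) : ℕ) : ℝ) = 10900 := by
    rw [sA]; norm_num
  simp only [Nat.cast_sum] at h ⊢
  simp only [Finset.sum_add_distrib, ← Finset.sum_mul, Finset.sum_const, Finset.card_univ,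
    Fintype.card_fin, nsmul_eq_mul, ← Finset.mul_sum, h]
  push_cast
  ring

lemma cost23 (r : Option (Bool × ℕ)) (hr : r ≠ some (true, 0)) (s : Fin 3 → ℝ)
    (hs : ∀ j, 0 < s j) : cost r 2 3 (law 9 50) s =
    (∑ a : Fin 10, ∑ f : Fin 10, ∑ b : Fin 10, ∑ c : Fin 10, ∑ d : Fin 10, ∑ e : Fin 10,
      (((50 + a.val : ℕ) : ℝ) / s 0 + ((50 + f.val : ℕ) : ℝ) / s 2 +
        max (max (((50 + d.val : ℕ) : ℝ) / s 0 + ((50 + e.val : ℕ) : ℝ) / s 1)
          (((50 + b.val : ℕ) : ℝ) / s 1 + ((50 + e.val : ℕ) : ℝ) / s 1))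
          (((50 + b.val : ℕ) : ℝ) / s 1 + ((50 + c.val : ℕ) : ℝ) / s 2))) / 1000000 := by
  unfold cost
  rw [int_eq, ← sum6]
  · congr 1
    · refine Finset.sum_congr rfl fun w _ => ?_
      rw [dep23 r hr]
      · rfl
      · intro i j
        split_ifs
        · exact div_nonneg (Nat.cast_nonneg _) (hs _).le
        · exact le_rfl
    · norm_num
  · refine meas r 3 _ (fun i j => ?_) 2 3
    split_ifs
    · fun_prop
    · exact measurable_const

lemma main23 (r : Option (Bool × ℕ)) (hr : r ≠ some (true, 0)) (s : Fin 3 → ℝ)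
    (hs : ∀ j, 0 < s j) (h1 : ∑ j, s j = 1) (h2 : s 2 = s 0) (h3 : s 0 ≤ s 1) :
    cost r 2 3 (law 9 50) ![81 / 242, 80 / 242, 81 / 242] < cost r 2 3 (law 9 50) s := by
  rw [cost23 r hr s hs, cost23 r hr _ (by intro j; fin_cases j <;> norm_num)]
  refine div_lt_div_of_pos_right ?_ (by norm_num)
  have hp := hs 0
  have hq := hs 1
  rw [Fin.sum_univ_three, h2] at h1
  have u1 : 6 - 9 * s 0 ≤ (s 0)⁻¹ := by
    rw [← one_div, le_div_iff₀ hp]; nlinarith [sq_nonneg (3 * s 0 - 1)]
  have u2 : 6 - 9 * s 1 ≤ (s 1)⁻¹ := by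
    rw [← one_div, le_div_iff₀ hq]; nlinarith [sq_nonneg (3 * s 1 - 1)]
  calc _ = ∑ a : Fin 10, ∑ f : Fin 10, ∑ b : Fin 10, ∑ c : Fin 10, ∑ d : Fin 10, ∑ e : Fin 10,
      (((50 + a.val + (50 + f.val) : ℕ) : ℝ) * (242 / 81) +
        (R (50 + b) (50 + c) (50 + d) (50 + e) : ℝ) * (242 / 6480) +
        (R (50 + b) (50 + c) (50 + d) (50 + e) : ℝ) * 0) := by
        refine Finset.sum_congr rfl fun a _ => Finset.sum_congr rfl fun f _ =>
          Finset.sum_congr rfl fun b _ => Finset.sum_congr rfl fun c _ =>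
          Finset.sum_congr rfl fun d _ => Finset.sum_congr rfl fun e _ => ?_
        simp only [R, Nat.cast_max, Matrix.cons_val_zero, Matrix.cons_val_one, Matrix.cons_val,
          max_mul_of_nonneg _ _ (show (0 : ℝ) ≤ 242 / 6480 by norm_num)]
        push_cast
        rw [mul_zero, add_zero]
        congr 1
        · ring
        · congr 1
          · congr 1 <;> ring
          · ring
    _ < 109000000 * (s 0)⁻¹ + 100 * 448679 * (s 0)⁻¹ + 100 * 669404 * (s 1)⁻¹ := by
        rw [lin, sR]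
        push_cast
        linarith
    _ = ∑ a : Fin 10, ∑ f : Fin 10, ∑ b : Fin 10, ∑ c : Fin 10, ∑ d : Fin 10, ∑ e : Fin 10,
      (((50 + a.val + (50 + f.val) : ℕ) : ℝ) * (s 0)⁻¹ +
        (P (50 + b) (50 + c) (50 + d) (50 + e) : ℝ) * (s 0)⁻¹ +
        (Q (50 + b) (50 + c) (50 + d) (50 + e) : ℝ) * (s 1)⁻¹) := by
        rw [lin, sP, sQ]
        push_cast
        ring
    _ ≤ _ := by
        refine Finset.sum_le_sum fun a _ => Finset.sum_le_sum fun f _ =>
          Finset.sum_le_sum fun b _ => Finset.sum_le_sum fun c _ =>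
          Finset.sum_le_sum fun d _ => Finset.sum_le_sum fun e _ => ?_
        rw [h2, add_assoc]
        refine add_le_add (le_of_eq (by push_cast; ring)) ?_
        unfold P Q
        split_ifs
        · exact le_max_of_le_left (le_max_of_le_left (le_of_eq (by ring)))
        · exact le_max_of_le_right (le_of_eq (by ring))
        · exact le_max_of_le_left (le_max_of_le_right (le_of_eq (by push_cast; ring)))

lemma cost25 (s : Fin 5 → ℝ) (hs : ∀ j, 0 < s j) : cost (some (true, 0)) 2 5 (law 0 1) s =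
    max (max (max (max (1 / s 0 + 1 / s 1 + 1 / s 0) (1 / s 0 + 1 / s 1 + 1 / s 2) + 1 / s 1)
      (1 / s 0 + 1 / s 1 + 1 / s 2 + 1 / s 3) + 1 / s 2)
      (1 / s 0 + 1 / s 1 + 1 / s 2 + 1 / s 3 + 1 / s 4) + 1 / s 3)
      (1 / s 0 + 1 / s 1 + 1 / s 2 + 1 / s 3 + 1 / s 4) + 1 / s 4 := by
  unfold cost
  rw [int_eq]
  · rw [Fintype.sum_unique (ι := Fin 2 × Fin 5 → Fin 1)]
    simp only [zero_add, Nat.cast_one, one_pow, div_one, Fin.val_eq_zero, add_zero]
    set T : ℕ → ℕ → ℝ := fun i j => if h : i < 2 ∧ j < 5 then 1 / s ⟨j, h.2⟩ else 0 with hT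
    have hT0 : ∀ i j, 0 ≤ T i j := by
      intro i j
      simp only [hT]
      split_ifs
      · exact (one_div_pos.mpr (hs _)).le
      · exact le_rfl
    have a1 := row1 (some (true, 0)) 5 T hT0 1 (by omega)
    have a2 := row1 (some (true, 0)) 5 T hT0 2 (by omega)
    have a3 := row1 (some (true, 0)) 5 T hT0 3 (by omega)
    have a4 := row1 (some (true, 0)) 5 T hT0 4 (by omega)
    have a5 := row1 (some (true, 0)) 5 T hT0 5 (by omega)
    have a6 := z2 (some (true, 0)) 5 T 1 5 le_rfl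
    simp only [Finset.sum_range_succ, Finset.sum_range_zero, zero_add] at a1 a2 a3 a4 a5
    have h0 := hT0 0 0
    have h1 := hT0 0 1
    have h2 := hT0 0 2
    have h3 := hT0 0 3
    have h4 := hT0 0 4
    rw [eC 0 5 T 1 4 (by omega), eC 0 5 T 1 3 (by omega), eC 0 5 T 1 2 (by omega),
      eC 0 5 T 1 1 (by omega), eC 0 5 T 1 0 (by omega), z1, a1, a2, a3, a4, a5, a6,
      max_eq_right h0, max_assoc _ _ 0, max_eq_left (b := 0) (by linarith),
      max_eq_right (a := T 0 0) (by linarith),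
      max_assoc _ (T 0 0 + T 0 1), max_eq_right (a := T 0 0 + T 0 1) (by linarith),
      max_assoc _ (T 0 0 + T 0 1 + T 0 2), max_eq_right (a := T 0 0 + T 0 1 + T 0 2) (by linarith),
      max_assoc _ (T 0 0 + T 0 1 + T 0 2 + T 0 3),
      max_eq_right (a := T 0 0 + T 0 1 + T 0 2 + T 0 3) (by linarith)]
    rfl
  · refine meas _ 5 _ (fun i j => ?_) 2 5
    split_ifs
    · fun_prop
    · exact measurable_const

lemma main25 (s : Fin 5 → ℝ) (hs : ∀ j, 0 < s j) (h1 : ∑ j, s j = 1) (h4 : s 4 = s 0)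
    (h3 : s 3 = s 1) (h12 : s 1 ≤ s 2) (h01 : s 0 ≤ s 1) :
    cost (some (true, 0)) 2 5 (law 0 1) ![78 / 400, 83 / 400, 78 / 400, 83 / 400, 78 / 400] <
      cost (some (true, 0)) 2 5 (law 0 1) s := by
  rw [cost25 s hs, cost25 _ (by intro j; fin_cases j <;> norm_num)]
  rw [Fin.sum_univ_five, h4, h3] at h1
  have u : ∀ j, 10 - 25 * s j ≤ 1 / s j := fun j => by
    rw [le_div_iff₀ (hs j)]; nlinarith [sq_nonneg (5 * s j - 1)]
  have u0 := u 0
  have u1 := u 1
  have u2 := u 2
  rw [h4, h3]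
  refine lt_of_lt_of_le (b := 35) (by simp only [Matrix.cons_val]; norm_num) ?_
  refine le_trans ?_ (add_le_add_left (le_max_left _ _) _)
  refine le_trans ?_ (add_le_add_left (add_le_add_left (le_max_left _ _) _) _)
  refine le_trans ?_ (add_le_add_left (add_le_add_left (add_le_add_left (le_max_left _ _) _) _) _)
  refine le_trans ?_ (add_le_add_left (add_le_add_left (add_le_add_left
    (add_le_add_left (le_max_left _ _) _) _) _) _)
  linarith

theorem result (r : Option (Bool × ℕ)) :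
    ∃ (n m : ℕ) (μ : Measure ℝ), 0 < n ∧ 0 < m ∧ IsProbabilityMeasure μ ∧ μ (Set.Iio 0) = 0 ∧
      Integrable (fun x : ℝ => x) μ ∧
      ∀ s : Fin m → ℝ, (∀ j, 0 < s j) → ∑ j, s j = 1 → (∀ j, s j = s j.rev) →
        (∀ j k : Fin m, j ≤ k → k.val + 1 ≤ (m + 1) / 2 → s j ≤ s k) →
        ∃ t : Fin m → ℝ, (∀ j, 0 < t j) ∧ ∑ j, t j = 1 ∧ cost r n m μ t < cost r n m μ s := by
  by_cases hr : r = some (true, 0)
  · subst hr
    refine ⟨2, 5, law 0 1, by omega, by omega, inferInstance, law_neg _ _, law_int _ _,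
      fun s hs h1 h2 h3 => ⟨_, ?_, ?_, main25 s hs h1 (h2 4) (h2 3) (h3 1 2 (by decide) (by decide))
        (h3 0 1 (by decide) (by decide))⟩⟩
    · intro j; fin_cases j <;> norm_num
    · rw [Fin.sum_univ_five]; simp only [Matrix.cons_val]; norm_num
  · refine ⟨2, 3, law 9 50, by omega, by omega, inferInstance, law_neg _ _, law_int _ _,
      fun s hs h1 h2 h3 => ⟨_, ?_, ?_, main23 r hr s hs h1 (h2 2) (h3 0 1 (by decide) (by decide))⟩⟩
    · intro j; fin_cases j <;> norm_num
    · rw [Fin.sum_univ_three]; simp only [Matrix.cons_val]; norm_num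

end Pool.Agent.Results.MP_eb4cdf_pr.NotBowl
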